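import Pool.Agent.J4H40.YJ.P1

set_option autoImplicit false
set_option linter.unusedSectionVars false

/-!
# Project YJ, piece P2 (helper46): smooth curves transversal to `x 0 = 0`
-/

namespace Pool.Agent.J4H46.YJ

open MvPolynomial
open Pool.Agent.W428.MOT
open Pool.Agent.TH192.MT (ar)
open Pool.Agent.J4H50.YJ
open Pool.Agent.J4H40.YJ (vFF FF coeff_zero_aeval coeff_zero_at oc_zero)

section

variable {K : Type} [Field K] {σ : Type} [Fintype σ] [DecidableEq σ]

/-- Taylor's formula for a change of one coordinate by `c t ^ m`, `m ≥ 1`, modulo `t ^ (m + 1)` -/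
theorem taylor (x : Ac K σ) (i : σ) {m : ℕ} (hm : 1 ≤ m) (c : AlgebraicClosure K)
    (h : MvPolynomial σ K) : ∃ w : PowerSeries (AlgebraicClosure K),
    aeval (Function.update x i (x i + PowerSeries.monomial m c)) h =
      aeval x h + PowerSeries.X ^ m * (PowerSeries.C c * aeval x (pderiv i h)) +
        PowerSeries.X ^ (m + 1) * w := by
  have hmon : PowerSeries.monomial m c = PowerSeries.X ^ m * PowerSeries.C c := by
    rw [mul_comm, PowerSeries.monomial_eq_mk, PowerSeries.X_pow_eq]
    ext n
    rw [PowerSeries.coeff_mk, PowerSeries.coeff_C_mul, PowerSeries.coeff_monomial]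
    split_ifs <;> simp
  set y : Ac K σ := Function.update x i (x i + PowerSeries.monomial m c) with hy
  induction h using MvPolynomial.induction_on with
  | C a =>
    refine ⟨0, ?_⟩
    simp
  | add p q hp hq =>
    obtain ⟨w1, h1⟩ := hp
    obtain ⟨w2, h2⟩ := hq
    refine ⟨w1 + w2, ?_⟩
    rw [map_add, h1, h2, map_add, map_add, map_add]
    ring
  | mul_X p j hp =>
    obtain ⟨w1, h1⟩ := hp
    obtain ⟨k, rfl⟩ : ∃ k, m = k + 1 := ⟨m - 1, by omega⟩
    by_cases hj : j = i
    · subst hj
      have hyj : y j = x j + PowerSeries.X ^ (k + 1) * PowerSeries.C c := by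
        rw [hy, Function.update_self, hmon]
      refine ⟨w1 * y j + PowerSeries.X ^ k * PowerSeries.C c * PowerSeries.C c *
        aeval x (pderiv j p), ?_⟩
      rw [map_mul, aeval_X, h1, map_mul, aeval_X, Derivation.leibniz, map_add, pderiv_X_self]
      simp only [smul_eq_mul, map_mul, aeval_X, mul_one]
      rw [hyj]
      ring
    · have hyj : y j = x j := by
        rw [hy, Function.update_of_ne hj]
      refine ⟨w1 * x j, ?_⟩
      rw [map_mul, aeval_X, h1, map_mul, aeval_X, Derivation.leibniz, map_add,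
        pderiv_X_of_ne hj]
      simp only [smul_eq_mul, map_mul, aeval_X, map_zero, mul_zero, zero_add]
      rw [hyj]
      ring

theorem taylor_lt (x : Ac K σ) (i : σ) {m : ℕ} (hm : 1 ≤ m) (c : AlgebraicClosure K)
    (h : MvPolynomial σ K) {j : ℕ} (hj : j < m) :
    PowerSeries.coeff j (aeval (Function.update x i (x i + PowerSeries.monomial m c)) h) =
      PowerSeries.coeff j (aeval x h) := by
  obtain ⟨w, hw⟩ := taylor x i hm c h
  rw [hw, map_add, map_add, PowerSeries.coeff_X_pow_mul', PowerSeries.coeff_X_pow_mul',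
    if_neg (by omega), if_neg (by omega), add_zero, add_zero]

theorem taylor_eq (x : Ac K σ) (i : σ) {m : ℕ} (hm : 1 ≤ m) (c : AlgebraicClosure K)
    (h : MvPolynomial σ K) :
    PowerSeries.coeff m (aeval (Function.update x i (x i + PowerSeries.monomial m c)) h) =
      PowerSeries.coeff m (aeval x h) + c * PowerSeries.coeff 0 (aeval x (pderiv i h)) := by
  obtain ⟨w, hw⟩ := taylor x i hm c h
  rw [hw, map_add, map_add, PowerSeries.coeff_X_pow_mul', PowerSeries.coeff_X_pow_mul',
    if_pos le_rfl, if_neg (by omega), add_zero, Nat.sub_self, PowerSeries.coeff_C_mul]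

end

theorem t_P2 : Bas → S_P2 := by
  intro hB K _ R _ M v hv h hh hq c0 l hc0
  -- the arcs with order larger than `k`
  set B : ℕ → Set (Ac K (Fin 2)) := fun k => {x | (oc c0 (x 0) ∧ PowerSeries.coeff 0 (x 1) = 0) ∧
    ∀ j ≤ k, PowerSeries.coeff j (aeval x h) = 0} with hBdef
  have h00 : ∀ x : Ac K (Fin 2), oc c0 (x 0) → PowerSeries.coeff 0 (x 1) = 0 →
      PowerSeries.coeff 0 (aeval x h) = 0 := by
    intro x h0 h1
    rw [coeff_zero_at (oc_zero h0 hc0) h1, hh, map_zero]
  have hB0 : B 0 = FF K c0 none := by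
    ext x
    simp only [hBdef, FF, Set.mem_ofPred_eq]
    constructor
    · rintro ⟨h1, -⟩
      exact h1
    · intro h1
      refine ⟨h1, fun j hj => ?_⟩
      rw [Nat.le_zero.1 hj]
      exact h00 x h1.1 h1.2
  have hBs : ∀ k, B (k + 1) = B k ∩ {x | PowerSeries.coeff (k + 1) (ev x (rename some h)) = 0} := by
    intro k
    ext x
    simp only [hBdef, Set.mem_inter_iff, Set.mem_ofPred_eq, ev_some]
    constructor
    · rintro ⟨h1, h2⟩
      exact ⟨⟨h1, fun j hj => h2 j (by omega)⟩, h2 _ le_rfl⟩
    · rintro ⟨⟨h1, h2⟩, h3⟩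
      refine ⟨h1, fun j hj => ?_⟩
      rcases Nat.lt_or_ge j (k + 1) with h4 | h4
      · exact h2 j (by omega)
      · rw [le_antisymm hj h4]
        exact h3
  have key : ∀ k, IsCyl (B k) ∧ vol M v (B k) = mo v c0 * v * v ^ k := by
    intro k
    induction k with
    | zero =>
      rw [hB0]
      obtain ⟨e1, e2⟩ := vFF M v hv hB c0 none
      refine ⟨e1, ?_⟩
      rw [e2, pow_zero, mul_one]
      rfl
    | succ k ih =>
      obtain ⟨i1, i2⟩ := ih
      rw [hBs k]
      refine ⟨(cyl_ops M v hv hB.v1).2.1 _ _ i1 ((hB.cc (K := K) (σ := Fin 2)).1 _ _), ?_⟩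
      have hqx : ∀ x ∈ B k, aeval (fun i => PowerSeries.coeff 0 (x i)) (pderiv 1 h) ≠
          (0 : AlgebraicClosure K) := by
        intro x hx
        rw [← coeff_zero_aeval, coeff_zero_at (oc_zero hx.1.1 hc0) hx.1.2]
        exact fun h2 => hq ((map_eq_zero _).1 h2)
      have h2 := hB.lin M v hv (σ := Fin 2) (B k) i1 1 (k + 1) (k + 1) (rename some h) (pderiv 1 h)
        (by omega) hqx (by
          intro x hx c
          constructor
          · refine ⟨⟨?_, ?_⟩, ?_⟩
            · rw [Function.update_of_ne (by decide)]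
              exact hx.1.1
            · rw [Function.update_self, map_add, PowerSeries.coeff_monomial, if_neg (by omega),
                add_zero]
              exact hx.1.2
            · intro j hj
              rw [taylor_lt x 1 (by omega) c h (by omega)]
              exact hx.2 j hj
          · rw [ev_some, ev_some, taylor_eq x 1 (by omega) c h, coeff_zero_aeval])
      rw [h2, i2]
      ring
  have hA2 : ∀ x : Ac K (Fin 2), x ∈ A2 h c0 none l ↔
      (oc c0 (x 0) ∧ PowerSeries.coeff 0 (x 1) = 0) ∧ Od (aeval x h) l := by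
    intro x
    simp only [A2, Set.mem_ofPred_eq, and_assoc]
    rfl
  split_ifs with hl
  · have e : A2 h c0 none l = ∅ := by
      ext x
      rw [hA2]
      simp only [Set.mem_empty_iff_false, iff_false]
      rintro ⟨h1, h2⟩
      rw [hl] at h2
      exact h2.2 (h00 x h1.1 h1.2)
    rw [e]
    exact (hB.v1 M v hv (σ := Fin 2)).2.2.2.2
  · obtain ⟨k, rfl⟩ : ∃ k, l = k + 1 := ⟨l - 1, by omega⟩
    have hsub : B (k + 1) ⊆ B k := by
      rw [hBs]
      exact Set.inter_subset_left
    have e : A2 h c0 none (k + 1) = {x | x ∈ B k ∧ x ∉ B (k + 1)} := by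
      ext x
      rw [hA2]
      simp only [Set.mem_ofPred_eq, hBdef]
      constructor
      · rintro ⟨h1, h2, h3⟩
        exact ⟨⟨h1, fun j hj => h2 j (by omega)⟩, fun h4 => h3 (h4.2 _ le_rfl)⟩
      · rintro ⟨⟨h1, h2⟩, h3⟩
        refine ⟨h1, fun j hj => h2 j (by omega), fun h4 => h3 ⟨h1, fun j hj => ?_⟩⟩
        rcases Nat.lt_or_ge j (k + 1) with h5 | h5
        · exact h2 j (by omega)
        · rw [le_antisymm hj h5]
          exact h4
    rw [e, vol_diff M v hv hB.v1 _ _ (key k).1 (key (k + 1)).1 hsub, (key k).2, (key (k + 1)).2]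
    ring

end Pool.Agent.J4H46.YJ
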